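import Pool.Agent.H70.AV3.REG

/-!
# Three-descent, stage 2: the number of invertible matrices (GLC)
-/

set_option autoImplicit false

namespace Pool.AV3

open Polynomial Matrix Pool.AVR

theorem GLC.fibre {R k : Type} [CommRing R] [Field k] {φ : R →+* k} {τ : R} (h : Res φ τ)
    (M : Matrix (Fin 3) (Fin 3) k) : {g : Matrix (Fin 3) (Fin 3) R | g.map φ = M}.ncard =
      {x : R | φ x = 0}.ncard ^ 9 := by
  classical
  have := h.fin
  have e : {g : Matrix (Fin 3) (Fin 3) R | g.map φ = M} ≃
      ((p : Fin 3 × Fin 3) → {x : R | φ x = M p.1 p.2}) :=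
    { toFun := fun g p => ⟨g.1 p.1 p.2, by
        have h1 : g.1.map φ = M := g.2
        have h2 := congrFun (congrFun h1 p.1) p.2
        exact h2⟩
      invFun := fun f => ⟨Matrix.of fun i j => (f (i, j)).1, by
        have h1 : (Matrix.of fun i j => (f (i, j)).1).map φ = M := by
          ext i j
          exact (f (i, j)).2
        exact h1⟩
      left_inv := fun g => by
        apply Subtype.ext
        rfl
      right_inv := fun f => by
        funext p
        rfl }
  rw [← Nat.card_coe_set_eq, Nat.card_congr e, Nat.card_pi]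
  have h3 : ∀ p : Fin 3 × Fin 3, Nat.card {x : R | φ x = M p.1 p.2} =
      {x : R | φ x = 0}.ncard := by
    intro p
    rw [Nat.card_coe_set_eq, REG.fibre h]
  rw [Finset.prod_congr rfl fun p _ => h3 p, Finset.prod_const, Finset.card_univ]
  rfl

theorem GLC_thm : GLCStmt := by
  classical
  intro R k _ _ φ τ h
  have hfin := h.fin
  have hk : Finite k := Finite.of_surjective φ h.sur
  have := Fintype.ofFinite R
  have := Fintype.ofFinite k
  set A : Finset (Matrix (Fin 3) (Fin 3) R) := Finset.univ.filter fun g => IsUnit g.det with hA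
  set B : Finset (Matrix (Fin 3) (Fin 3) k) := Finset.univ.filter fun g => IsUnit g.det with hB
  have h0 : {g : Matrix (Fin 3) (Fin 3) R | IsUnit g.det}.ncard = A.card := by
    rw [← Set.ncard_coe_finset]
    congr 1
    ext g
    simp [hA]
  have hdet : ∀ g : Matrix (Fin 3) (Fin 3) R, IsUnit g.det ↔ IsUnit (g.map φ).det := by
    intro g
    have hd : (g.map φ).det = φ g.det := by
      rw [RingHom.map_det]
      rfl
    rw [hd, isUnit_iff_ne_zero]
    exact REG.unit_iff h _
  have h1 : A.card = ∑ M ∈ B, (A.filter fun g => g.map φ = M).card := by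
    apply Finset.card_eq_sum_card_fiberwise
    intro g hg
    have hg' : IsUnit g.det := by simpa [hA] using hg
    have : IsUnit (g.map φ).det := (hdet g).1 hg'
    simpa [hB] using this
  have h2 : ∀ M ∈ B, (A.filter fun g => g.map φ = M).card = {x : R | φ x = 0}.ncard ^ 9 := by
    intro M hM
    rw [← GLC.fibre h M, ← Set.ncard_coe_finset]
    congr 1
    ext g
    simp only [Finset.coe_filter, Set.mem_setOf_eq]
    constructor
    · rintro ⟨-, h3⟩
      exact h3
    · intro h3
      refine ⟨?_, h3⟩
      have h4 : IsUnit M.det := by simpa [hB] using hM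
      rw [← h3] at h4
      simpa [hA] using (hdet g).2 h4
  rw [Finset.sum_congr rfl h2, Finset.sum_const, smul_eq_mul] at h1
  have h3 : B.card = Nat.card (GL (Fin 3) k) := by
    rw [Nat.card_eq_fintype_card, Fintype.card, eq_comm]
    apply Finset.card_bij (fun (g : GL (Fin 3) k) _ => (g : Matrix (Fin 3) (Fin 3) k))
    · intro g _
      have : IsUnit (g : Matrix (Fin 3) (Fin 3) k).det := by
        rw [← Matrix.isUnit_iff_isUnit_det]
        exact g.isUnit
      simpa [hB] using this
    · intro g _ g' _ hgg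
      exact Units.ext hgg
    · intro M hM
      have h4 : IsUnit M.det := by simpa [hB] using hM
      obtain ⟨u, hu⟩ := (Matrix.isUnit_iff_isUnit_det M).2 h4
      exact ⟨u, Finset.mem_univ _, hu⟩
  have h4 : Nat.card (GL (Fin 3) k) = ∏ i : Fin 3, (Fintype.card k ^ 3 - Fintype.card k ^ (i : ℕ)) :=
    Matrix.card_GL_field 3
  have h5 := REG.card_fibre h 0
  rw [h0, h1, h3, h4, ← h5]
  rw [Nat.card_eq_fintype_card, Fin.prod_univ_three]
  have hq : 1 ≤ Fintype.card k := Fintype.card_pos
  generalize Fintype.card k = q at *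
  generalize {x : R | φ x = 0}.ncard = m at *
  have e0 : q ^ 3 - q ^ ((0 : Fin 3) : ℕ) = q ^ 3 - 1 := by simp
  have e1 : q ^ 3 - q ^ ((1 : Fin 3) : ℕ) = q * (q ^ 2 - 1) := by
    rw [Nat.mul_sub]
    simp
    ring_nf
  have e2 : q ^ 3 - q ^ ((2 : Fin 3) : ℕ) = q ^ 2 * (q - 1) := by
    rw [Nat.mul_sub]
    simp
    ring_nf
  rw [e0, e1, e2]
  ring

end Pool.AV3
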