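import Pool.Agent.H70.AV3.SGG

/-!
# Three-descent, stage 2: existence of normal forms (NFO3)
-/

set_option autoImplicit false

namespace Pool.AV3

open Polynomial Matrix Pool.AVR

section Ring

variable {R : Type} [CommRing R]

/-- The matrix with columns `u`, `v`, `w`. -/
def NFO.cm (u v w : Fin 3 → R) : Matrix (Fin 3) (Fin 3) R :=
  !![u 0, v 0, w 0; u 1, v 1, w 1; u 2, v 2, w 2]

theorem NFO.cm_det (u v w : Fin 3 → R) : (NFO.cm u v w).det =
    u 0 * (v 1 * w 2 - v 2 * w 1) + u 1 * (v 2 * w 0 - v 0 * w 2) +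
      u 2 * (v 0 * w 1 - v 1 * w 0) := by
  rw [NFO.cm, Matrix.det_fin_three]
  simp
  ring

theorem NFO.cm_e1 (u v w : Fin 3 → R) : NFO.cm u v w *ᵥ (e1 : Fin 3 → R) = v := by
  funext i
  fin_cases i <;> simp [mulVec3, NFO.cm, e1]

omit [CommRing R] in
theorem NFO.cm0 (u v w : Fin 3 → R) : (fun i => NFO.cm u v w i 0) = u := by
  funext i
  fin_cases i <;> simp [NFO.cm]

omit [CommRing R] in
theorem NFO.cm1 (u v w : Fin 3 → R) : (fun i => NFO.cm u v w i 1) = v := by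
  funext i
  fin_cases i <;> simp [NFO.cm]

omit [CommRing R] in
theorem NFO.cm2 (u v w : Fin 3 → R) : (fun i => NFO.cm u v w i 2) = w := by
  funext i
  fin_cases i <;> simp [NFO.cm]

/-- First step: a form with a smooth point, in coordinates adapted to the tangent line. -/
theorem NFO.step1 (c : Fin 10 → R) (v w u : Fin 3 → R) (h0 : tev c v = 0)
    (hl : IsUnit (tder c v w)) (hd : IsUnit (NFO.cm u v w).det) :
    ∃ (g : Matrix (Fin 3) (Fin 3) R) (c' : Fin 10 → R), g *ᵥ (e1 : Fin 3 → R) = v ∧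
      Eqv g c c' ∧ c' 3 = 0 ∧ c' 6 = 0 ∧ c' 7 = -1 := by
  obtain ⟨l, hl'⟩ := hl
  obtain ⟨d, hd'⟩ := hd
  have hli : tder c v w * ((l⁻¹ : Rˣ) : R) = 1 := by
    rw [← hl']
    exact l.mul_inv
  have hdi : (NFO.cm u v w).det * ((d⁻¹ : Rˣ) : R) = 1 := by
    rw [← hd']
    exact d.mul_inv
  set s : R := tder c v u * ((l⁻¹ : Rˣ) : R) with hs
  set r : R := -(tder c v w * ((d⁻¹ : Rˣ) : R)) with hr
  set u2 : Fin 3 → R := r • (u + (-s) • w) with hu2
  have e1' : tder c v u2 = 0 := by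
    rw [hu2, tder_smul_right, tder_add_right, tder_smul_right, hs]
    linear_combination (-(r * tder c v u)) * hli
  have e2 : (NFO.cm u2 v w).det = -tder c v w := by
    have e3 : (NFO.cm u2 v w).det = r * (NFO.cm u v w).det := by
      rw [NFO.cm_det, NFO.cm_det, hu2]
      simp only [Pi.smul_apply, Pi.add_apply, smul_eq_mul]
      ring
    rw [e3, hr]
    linear_combination (-tder c v w) * hdi
  have hunit : IsUnit (NFO.cm u2 v w).det := by
    rw [e2, ← hl']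
    exact l.isUnit.neg
  refine ⟨NFO.cm u2 v w, (-((l⁻¹ : Rˣ) : R)) • tsub c (NFO.cm u2 v w), NFO.cm_e1 _ _ _,
    ⟨hunit, ?_⟩, ?_, ?_, ?_⟩
  · rw [smul_smul, e2]
    have : -tder c v w * -((l⁻¹ : Rˣ) : R) = 1 := by
      rw [neg_mul_neg]
      exact hli
    rw [this, one_smul]
  · have : tsub c (NFO.cm u2 v w) 3 = 0 := by
      have h3 : tsub c (NFO.cm u2 v w) 3 =
        tder c (fun i => NFO.cm u2 v w i 1) (fun i => NFO.cm u2 v w i 0) := rfl
      rw [h3, NFO.cm1, NFO.cm0, e1']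
    rw [Pi.smul_apply, this, smul_zero]
  · have : tsub c (NFO.cm u2 v w) 6 = 0 := by
      have h3 : tsub c (NFO.cm u2 v w) 6 = tev c (fun i => NFO.cm u2 v w i 1) := rfl
      rw [h3, NFO.cm1, h0]
    rw [Pi.smul_apply, this, smul_zero]
  · have : tsub c (NFO.cm u2 v w) 7 = tder c v w := by
      have h3 : tsub c (NFO.cm u2 v w) 7 =
        tder c (fun i => NFO.cm u2 v w i 1) (fun i => NFO.cm u2 v w i 2) := rfl
      rw [h3, NFO.cm1, NFO.cm2]
    rw [Pi.smul_apply, this, smul_eq_mul]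
    linear_combination (-1 : R) * hli

/-- Completing the square. -/
def NFO.sq (a b : R) : Matrix (Fin 3) (Fin 3) R := !![1, 0, 0; a, 1, b; 0, 0, 1]

theorem NFO.t3 (c : Fin 10 → R) (h3 : c 3 = 0) (h6 : c 6 = 0) (a b : R) :
    tsub c (NFO.sq a b) 3 = 0 := by
  simp [tsub, tder, NFO.sq, h3, h6]

theorem NFO.t4 (c : Fin 10 → R) (h3 : c 3 = 0) (h6 : c 6 = 0) (h7 : c 7 = -1) (a b : R) :
    tsub c (NFO.sq a b) 4 = c 4 - 2 * a := by
  simp only [tsub, tder, NFO.sq, h3, h6, h7, Matrix.cons_val, Matrix.of_apply, Matrix.cons_val']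
  ring

theorem NFO.t6 (c : Fin 10 → R) (h6 : c 6 = 0) (a b : R) :
    tsub c (NFO.sq a b) 6 = 0 := by
  simp [tsub, tev, NFO.sq, h6]

theorem NFO.t7 (c : Fin 10 → R) (h6 : c 6 = 0) (h7 : c 7 = -1) (a b : R) :
    tsub c (NFO.sq a b) 7 = -1 := by
  simp [tsub, tder, NFO.sq, h6, h7]

theorem NFO.t8 (c : Fin 10 → R) (h6 : c 6 = 0) (h7 : c 7 = -1) (a b : R) :
    tsub c (NFO.sq a b) 8 = c 8 - 2 * b := by
  simp only [tsub, tder, NFO.sq, h6, h7, Matrix.cons_val, Matrix.of_apply, Matrix.cons_val']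
  ring

theorem NFO.sg0 (A D E F G : R) : sg A D E F G 0 = D ∧ sg A D E F G 1 = A ∧ sg A D E F G 2 = E ∧
   sg A D E F G 3 = 0 ∧ sg A D E F G 4 = 0 ∧ sg A D E F G 5 = F ∧ sg A D E F G 6 = 0 ∧
   sg A D E F G 7 = -1 ∧ sg A D E F G 8 = 0 ∧ sg A D E F G 9 = G := by
  simp [sg]

omit [CommRing R] in
theorem NFO.ext10 {t t' : Fin 10 → R} (h0 : t 0 = t' 0) (h1 : t 1 = t' 1) (h2 : t 2 = t' 2)
    (h3 : t 3 = t' 3) (h4 : t 4 = t' 4) (h5 : t 5 = t' 5) (h6 : t 6 = t' 6) (h7 : t 7 = t' 7)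
    (h8 : t 8 = t' 8) (h9 : t 9 = t' 9) : t = t' := by
  funext i
  fin_cases i
  · exact h0
  · exact h1
  · exact h2
  · exact h3
  · exact h4
  · exact h5
  · exact h6
  · exact h7
  · exact h8
  · exact h9

theorem NFO.ext_sg {t : Fin 10 → R} (h3 : t 3 = 0) (h4 : t 4 = 0) (h6 : t 6 = 0) (h7 : t 7 = -1)
    (h8 : t 8 = 0) : t = sg (t 1) (t 0) (t 2) (t 5) (t 9) := by
  obtain ⟨e0, e1, e2, e3, e4, e5, e6, e7, e8, e9⟩ := NFO.sg0 (t 1) (t 0) (t 2) (t 5) (t 9)
  exact NFO.ext10 e0.symm e1.symm e2.symm (h3.trans e3.symm) (h4.trans e4.symm) e5.symm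
    (h6.trans e6.symm) (h7.trans e7.symm) (h8.trans e8.symm) e9.symm

/-- Second step: completing the square. -/
theorem NFO.step2 (τ : R) (hτ : 2 * τ = 1) (c : Fin 10 → R) (h3 : c 3 = 0) (h6 : c 6 = 0)
    (h7 : c 7 = -1) :
    ∃ (g : Matrix (Fin 3) (Fin 3) R) (A D E F G : R), g *ᵥ (e1 : Fin 3 → R) = e1 ∧
      Eqv g c (sg A D E F G) := by
  have hdet : (NFO.sq (τ * c 4) (τ * c 8)).det = 1 := by
    rw [NFO.sq, Matrix.det_fin_three]
    simp
  have t3 := NFO.t3 c h3 h6 (τ * c 4) (τ * c 8)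
  have t4 := NFO.t4 c h3 h6 h7 (τ * c 4) (τ * c 8)
  have t6 := NFO.t6 c h6 (τ * c 4) (τ * c 8)
  have t7 := NFO.t7 c h6 h7 (τ * c 4) (τ * c 8)
  have t8 := NFO.t8 c h6 h7 (τ * c 4) (τ * c 8)
  have t4' : tsub c (NFO.sq (τ * c 4) (τ * c 8)) 4 = 0 := by
    rw [t4]
    linear_combination (-c 4) * hτ
  have t8' : tsub c (NFO.sq (τ * c 4) (τ * c 8)) 8 = 0 := by
    rw [t8]
    linear_combination (-c 8) * hτ
  have he : NFO.sq (τ * c 4) (τ * c 8) *ᵥ (e1 : Fin 3 → R) = e1 := by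
    funext i
    fin_cases i <;> simp [mulVec3, NFO.sq, e1]
  generalize NFO.sq (τ * c 4) (τ * c 8) = g at *
  generalize ht : tsub c g = t at *
  refine ⟨g, t 1, t 0, t 2, t 5, t 9, he, ?_, ?_⟩
  · rw [hdet]
    exact isUnit_one
  · rw [hdet, one_smul, ht]
    exact NFO.ext_sg t3 t4' t6 t7 t8'

end Ring

theorem NFO3_thm : NFO3Stmt := by
  intro R k _ _ φ τ h c v h0 hG
  have hu := REG.unit_iff h
  obtain ⟨hG0, ⟨wb, hwb⟩, ⟨w', hw'1, hw'2⟩⟩ := hG
  choose w hw using fun i => h.sur (wb i)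
  have hwf : (fun i => φ (w i)) = wb := funext hw
  have hl : IsUnit (tder c v w) := by
    rw [hu, map_tder, hwf]
    exact hwb
  -- an adapted basis
  have hbas : ∃ u : Fin 3 → R, IsUnit (NFO.cm u v w).det := by
    by_contra hcon
    push Not at hcon
    have m0 : φ (v 1 * w 2 - v 2 * w 1) = 0 := by
      by_contra h1
      apply hcon ![1, 0, 0]
      rw [NFO.cm_det, hu]
      simpa using h1
    have m1 : φ (v 2 * w 0 - v 0 * w 2) = 0 := by
      by_contra h1
      apply hcon ![0, 1, 0]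
      rw [NFO.cm_det, hu]
      simpa using h1
    have m2 : φ (v 0 * w 1 - v 1 * w 0) = 0 := by
      by_contra h1
      apply hcon ![0, 0, 1]
      rw [NFO.cm_det, hu]
      simpa using h1
    simp only [map_sub, map_mul, hw] at m0 m1 m2
    have hself : tder (fun i => φ (c i)) (fun i => φ (v i)) (fun i => φ (v i)) = 0 := by
      rw [tder_self, hG0, mul_zero]
    have hv0 : ∀ j, φ (v j) = 0 := by
      intro j
      have hp : (φ (v j)) • wb = (wb j) • (fun i => φ (v i)) := by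
        funext i
        simp only [Pi.smul_apply, smul_eq_mul]
        fin_cases j <;> fin_cases i <;> simp only [Fin.zero_eta, Fin.mk_one, Fin.reduceFinMk]
        · ring
        · linear_combination m2
        · linear_combination (-1 : k) * m1
        · linear_combination (-1 : k) * m2
        · ring
        · linear_combination m0
        · linear_combination m1
        · linear_combination (-1 : k) * m0
        · ring
      have h2 : φ (v j) * tder (fun i => φ (c i)) (fun i => φ (v i)) wb = 0 := by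
        rw [← tder_smul_right, hp, tder_smul_right, hself, mul_zero]
      rcases mul_eq_zero.1 h2 with h3 | h3
      · exact h3
      · exact absurd h3 hwb
    apply hwb
    simp [tder, hv0]
  obtain ⟨u, hdu⟩ := hbas
  obtain ⟨g0, c', hg0, hE0, h3, h6, h7⟩ := NFO.step1 c v w u h0 hl hdu
  obtain ⟨g1, A, D, E, F, G, hg1, hE1⟩ := NFO.step2 τ h.half c' h3 h6 h7
  have hE := hE0.trans hE1
  have hge : (g0 * g1) *ᵥ (e1 : Fin 3 → R) = v := by
    rw [← Matrix.mulVec_mulVec, hg1, hg0]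
  refine ⟨g0 * g1, A, D, E, F, G, hge, hE, ?_⟩
  set g := g0 * g1 with hgdef
  have hmap := Eqv.map φ hE
  have hdet : IsUnit (g.map φ).det := hmap.1
  have hsg : (fun i => φ (sg A D E F G i)) = sg (φ A) (φ D) (φ E) (φ F) (φ G) := by
    funext i
    fin_cases i <;> simp [sg]
  rw [hsg] at hmap
  have hvb : (fun i => φ (v i)) = (g.map φ) *ᵥ (e1 : Fin 3 → k) := by
    funext i
    rw [← hge, mulVec3, mulVec3]
    simp [e1]
  set z : Fin 3 → k := (g.map φ)⁻¹ *ᵥ w' with hz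
  have hwz : w' = (g.map φ) *ᵥ z := by
    rw [hz, Matrix.mulVec_mulVec, Matrix.mul_nonsing_inv _ hdet, Matrix.one_mulVec]
  rw [hvb, hwz, hmap.tder, NF.tder_e1] at hw'1
  have hz2 : z 2 = 0 := by
    rcases mul_eq_zero.1 hw'1 with h5 | h5
    · exact absurd h5 hdet.ne_zero
    · exact neg_eq_zero.1 h5
  have hz3 : z = ![z 0, z 1, 0] := by
    funext i
    fin_cases i <;> simp [hz2]
  rw [hwz, hmap.tev, hz3, NF.tev_01] at hw'2
  by_contra hcon
  push Not at hcon
  have hA : φ A = 0 := by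
    by_contra h5
    exact hcon.1 ((hu A).2 h5)
  have hD : φ D = 0 := by
    by_contra h5
    exact hcon.2 ((hu D).2 h5)
  apply hw'2
  rw [hA, hD]
  ring

end Pool.AV3
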