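import Pool.Agent.H8.AV3.Stmts4

/-!
# Three-descent, stage 2: general facts on finite local rings (REG)
-/

set_option autoImplicit false

namespace Pool.AV3

open Polynomial Matrix Pool.AVR

theorem REG.unit_iff {R k : Type} [CommRing R] [Field k] {φ : R →+* k} {τ : R}
    (h : Res φ τ) (x : R) : IsUnit x ↔ φ x ≠ 0 := by
  constructor
  · intro hx
    exact (hx.map φ).ne_zero
  · intro hx
    rcases h.loc x with h1 | h1
    · exact h1
    · exact absurd h1 hx

theorem REG.fibre {R k : Type} [CommRing R] [Field k] {φ : R →+* k} {τ : R}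
    (h : Res φ τ) (y : k) : {x : R | φ x = y}.ncard = {x : R | φ x = 0}.ncard := by
  obtain ⟨x0, hx0⟩ := h.sur y
  have h1 : {x : R | φ x = y} = (fun x => x + x0) '' {x : R | φ x = 0} := by
    ext x
    simp only [Set.mem_setOf_eq, Set.mem_image]
    constructor
    · intro hx
      refine ⟨x - x0, ?_, by ring⟩
      rw [map_sub, hx, hx0, sub_self]
    · rintro ⟨z, hz, rfl⟩
      rw [map_add, hz, hx0, zero_add]
  rw [h1, Set.ncard_image_of_injective _ (add_left_injective x0)]

theorem REG.card_fibre {R k : Type} [CommRing R] [Field k] {φ : R →+* k} {τ : R}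
    (h : Res φ τ) (y : k) : {x : R | φ x = y}.ncard * Nat.card k = Nat.card R := by
  classical
  have := h.fin
  have hk : Finite k := Finite.of_surjective φ h.sur
  have := Fintype.ofFinite R
  have := Fintype.ofFinite k
  rw [REG.fibre h y]
  have h1 : Fintype.card R = ∑ z : k, (Finset.univ.filter fun x : R => φ x = z).card := by
    rw [← Finset.card_univ]
    exact Finset.card_eq_sum_card_fiberwise (fun x _ => Finset.mem_univ _)
  have h2 : ∀ z : k, (Finset.univ.filter fun x : R => φ x = z).card =
      {x : R | φ x = 0}.ncard := by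
    intro z
    rw [← REG.fibre h z, ← Set.ncard_coe_finset]
    congr 1
    ext x
    simp
  rw [Nat.card_eq_fintype_card, Nat.card_eq_fintype_card, h1]
  simp only [h2, Finset.sum_const, Finset.card_univ, smul_eq_mul]
  ring

theorem REG_thm : REGStmt := by
  intro R k _ _ φ τ h
  have hfin := h.fin
  have hk : Finite k := Finite.of_surjective φ h.sur
  have hu := REG.unit_iff h
  have hnt : Nontrivial R := φ.domain_nontrivial
  refine ⟨?_, hk, hu, REG.card_fibre h, ?_⟩
  · refine IsLocalRing.of_isUnit_or_isUnit_one_sub_self fun x => ?_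
    rcases h.loc x with h1 | h1
    · exact Or.inl h1
    · refine Or.inr ((hu _).2 ?_)
      rw [map_sub, map_one, h1, sub_zero]
      exact one_ne_zero
  · have h1 : {x : R | IsUnit x} = {x : R | φ x = 0}ᶜ := by
      ext x
      simp only [Set.mem_setOf_eq, Set.mem_compl_iff]
      exact hu x
    have h2 := REG.card_fibre h 0
    have h3 : {x : R | φ x = 0}.ncard + {x : R | IsUnit x}.ncard = Nat.card R := by
      rw [h1]
      exact Set.ncard_add_ncard_compl _
    have h4 : 1 ≤ Nat.card k := Nat.card_pos
    obtain ⟨m, hm⟩ := Nat.exists_eq_add_of_le h4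
    rw [← h3] at h2 ⊢
    rw [hm] at h2 ⊢
    have h5 : 1 + m - 1 = m := by omega
    rw [h5]
    nlinarith [h2]

end Pool.AV3
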