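import Pool.Agent.H70.AV3.REG
import Pool.Agent.H8.AV3.Base

/-!
# Three-descent, stage 2: normal forms of forms with a good point (SGG, SGR, NFO3)
-/

set_option autoImplicit false

namespace Pool.AV3

open Polynomial Matrix Pool.AVR

section Ring

variable {R : Type} [CommRing R]

theorem NF.tev_e1 (A D E F G : R) : tev (sg A D E F G) e1 = 0 := by
  simp [tev, sg, e1]

theorem NF.tder_e1 (A D E F G : R) (w : Fin 3 → R) : tder (sg A D E F G) e1 w = -w 2 := by
  simp [tder, sg, e1]

theorem NF.tev_01 (A D E F G x m : R) : tev (sg A D E F G) ![x, m, 0] = x ^ 2 * (D * x + A * m) := by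
  simp [tev, sg]
  ring

end Ring

theorem SGG_thm : SGGStmt := by
  intro R k _ _ φ τ h c g A D E F G hE hAD
  have hu := REG.unit_iff h
  have hmap := Eqv.map φ hE
  have hdet : (g.map φ).det ≠ 0 := by
    have h1 := hmap.1
    exact h1.ne_zero
  have hv : ∀ w : Fin 3 → R, (fun i => φ ((g *ᵥ w) i)) = (g.map φ) *ᵥ (fun i => φ (w i)) := by
    intro w
    funext i
    simp [mulVec3]
  have hsg : (fun i => φ (sg A D E F G i)) = sg (φ A) (φ D) (φ E) (φ F) (φ G) := by
    funext i
    fin_cases i <;> simp [sg]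
  have he1 : (fun i => φ ((e1 : Fin 3 → R) i)) = (e1 : Fin 3 → k) := by
    funext i
    fin_cases i <;> simp [e1]
  rw [hsg] at hmap
  refine ⟨?_, ?_, ?_, ?_⟩
  · rw [hE.tev, NF.tev_e1, mul_zero]
  · rw [hv, he1, hmap.tev, NF.tev_e1, mul_zero]
  · refine ⟨(g.map φ) *ᵥ ![0, 0, 1], ?_⟩
    rw [hv, he1, hmap.tder, NF.tder_e1]
    simpa using hdet
  · have key : ∃ m : k, φ D + φ A * m ≠ 0 := by
      by_cases hD : φ D = 0
      · refine ⟨1, ?_⟩
        rcases hAD with h1 | h1
        · rw [hD, zero_add, mul_one]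
          exact (hu _).1 h1
        · exact absurd hD ((hu _).1 h1)
      · exact ⟨0, by simpa using hD⟩
    obtain ⟨m, hm⟩ := key
    refine ⟨(g.map φ) *ᵥ ![1, m, 0], ?_, ?_⟩
    · rw [hv, he1, hmap.tder, NF.tder_e1]
      simp
    · rw [hmap.tev, NF.tev_01]
      refine mul_ne_zero hdet ?_
      simpa using hm

theorem SGR.det_aux {R : Type} [CommRing R] (a b c d e : R) :
    (!![a, 0, b; c, 1, d; 0, 0, e] : Matrix (Fin 3) (Fin 3) R).det = a * e := by
  rw [Matrix.det_fin_three]
  simp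

end Pool.AV3
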