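import Pool.Agent.H70.AV3.SGG

/-!
# Three-descent, stage 2: changes of variables between normal forms (SGR)
-/

set_option autoImplicit false

namespace Pool.AV3

open Polynomial Matrix Pool.AVR

section Ring

variable {R : Type} [CommRing R]

/-- The change of variables between two normal forms. -/
def SGR.mt (τ A : R) (p : R × R) : Matrix (Fin 3) (Fin 3) R :=
  !![1, 0, p.2 * p.1; A * p.1, 1, A * p.1 ^ 2 * p.2 * τ; 0, 0, p.2]

theorem SGR.det_mt (τ A : R) (p : R × R) : (SGR.mt τ A p).det = p.2 := by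
  rw [SGR.mt, Matrix.det_fin_three]
  simp

theorem SGR.mt_e1 (τ A : R) (p : R × R) : SGR.mt τ A p *ᵥ (e1 : Fin 3 → R) = e1 := by
  funext i
  fin_cases i <;> simp [mulVec3, SGR.mt, e1]

theorem SGR.mt_eqv (τ A D E F G : R) (hτ : 2 * τ = 1) (p : R × R) (hp : IsUnit p.2) :
    ∃ A' D' E' F' G' : R, Eqv (SGR.mt τ A p) (sg A D E F G) (sg A' D' E' F' G') := by
  obtain ⟨u, hu⟩ := hp
  have hi : p.2 * ((u⁻¹ : Rˣ) : R) = 1 := by
    rw [← hu]
    exact u.mul_inv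
  set t := tsub (sg A D E F G) (SGR.mt τ A p) with ht
  refine ⟨(u⁻¹ : Rˣ) * t 1, (u⁻¹ : Rˣ) * t 0, (u⁻¹ : Rˣ) * t 2, (u⁻¹ : Rˣ) * t 5,
    (u⁻¹ : Rˣ) * t 9, ?_, ?_⟩
  · rw [SGR.det_mt, ← hu]
    exact u.isUnit
  · rw [SGR.det_mt, ← ht]
    have e : ∀ x : R, p.2 * (((u⁻¹ : Rˣ) : R) * x) = x := by
      intro x
      rw [← mul_assoc, hi, one_mul]
    have h3 : t 3 = 0 := by
      simp [ht, tsub, tder, sg, SGR.mt]
    have h4 : t 4 = 0 := by
      simp [ht, tsub, tder, sg, SGR.mt]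
      ring
    have h6 : t 6 = 0 := by
      simp [ht, tsub, tev, sg, SGR.mt]
    have h7 : t 7 = -p.2 := by
      simp [ht, tsub, tder, sg, SGR.mt]
    have h8 : t 8 = 0 := by
      simp [ht, tsub, tder, sg, SGR.mt]
      linear_combination (-(p.2 ^ 2 * p.1 ^ 2 * A)) * hτ
    funext i
    fin_cases i <;> simp [sg, e, h3, h4, h6, h7, h8]

theorem SGR.conv (τ A D E F G : R) (hτ : 2 * τ = 1) (h : Matrix (Fin 3) (Fin 3) R)
    (h1 : h *ᵥ (e1 : Fin 3 → R) = e1) (A' D' E' F' G' : R)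
    (hE : Eqv h (sg A D E F G) (sg A' D' E' F' G')) :
    ∃ p : R × R, IsUnit p.2 ∧ SGR.mt τ A p = h := by
  have k0 : h 0 1 = 0 := by
    have := congrFun h1 0
    simpa [mulVec3, e1] using this
  have k1 : h 1 1 = 1 := by
    have := congrFun h1 1
    simpa [mulVec3, e1] using this
  have k2 : h 2 1 = 0 := by
    have := congrFun h1 2
    simpa [mulVec3, e1] using this
  have m3 := congrFun hE.2 3
  have m7 := congrFun hE.2 7
  have m4 := congrFun hE.2 4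
  have m8 := congrFun hE.2 8
  simp [tsub, tder, sg, k0, k1, k2] at m3 m7 m4 m8
  have hd : h.det = h 0 0 * h 2 2 := by
    rw [Matrix.det_fin_three, k0, k1, k2, m3]
    ring
  have hu : IsUnit (h 2 2) := by
    rw [m7]
    exact hE.1
  have h00 : h 0 0 = 1 := by
    have h5 : h 0 0 * h 2 2 = 1 * h 2 2 := by
      rw [← hd, ← m7, one_mul]
    exact hu.mul_right_cancel h5
  obtain ⟨u, hu'⟩ := hu
  have hi : h 2 2 * ((u⁻¹ : Rˣ) : R) = 1 := by
    rw [← hu']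
    exact u.mul_inv
  rw [m3, h00] at m4
  have q4 : h 1 0 * h 2 2 = A * h 0 2 := by
    linear_combination (-τ) * m4 + (A * h 0 2 - h 1 0 * h 2 2) * hτ
  have q8 : h 1 2 * h 2 2 = τ * A * h 0 2 ^ 2 := by
    linear_combination (-τ) * m8 + (- h 1 2 * h 2 2) * hτ
  refine ⟨(h 0 2 * ((u⁻¹ : Rˣ) : R), h 2 2), by rw [← hu']; exact u.isUnit, ?_⟩
  ext i j
  fin_cases i <;> fin_cases j <;> simp [SGR.mt, k0, k1, k2, m3, h00]
  · linear_combination (h 0 2) * hi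
  · linear_combination (-((u⁻¹ : Rˣ) : R)) * q4 + h 1 0 * hi
  · linear_combination (-((u⁻¹ : Rˣ) : R)) * q8 + (h 1 2 + A * h 0 2 ^ 2 * ((u⁻¹ : Rˣ) : R) * τ) * hi

end Ring

theorem SGR_thm : SGRStmt := by
  intro R k _ _ φ τ h A D E F G
  have := h.fin
  have h1 : {g : Matrix (Fin 3) (Fin 3) R | g *ᵥ (e1 : Fin 3 → R) = e1 ∧
      ∃ A' D' E' F' G' : R, Eqv g (sg A D E F G) (sg A' D' E' F' G')} =
      SGR.mt τ A '' ((Set.univ : Set R) ×ˢ {x : R | IsUnit x}) := by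
    ext g
    constructor
    · rintro ⟨h2, A', D', E', F', G', h3⟩
      obtain ⟨p, hp, hg⟩ := SGR.conv τ A D E F G h.half g h2 A' D' E' F' G' h3
      exact ⟨p, ⟨Set.mem_univ _, hp⟩, hg⟩
    · rintro ⟨p, ⟨-, hp⟩, rfl⟩
      exact ⟨SGR.mt_e1 τ A p, SGR.mt_eqv τ A D E F G h.half p hp⟩
  rw [h1, Set.ncard_image_of_injOn, Set.ncard_prod, Set.ncard_univ]
  rintro ⟨p, r⟩ ⟨-, hr⟩ ⟨p', r'⟩ ⟨-, hr'⟩ hpp
  have e1 := congrFun (congrFun hpp 2) 2
  have e2 := congrFun (congrFun hpp 0) 2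
  simp [SGR.mt] at e1 e2
  subst e1
  have e3 : p = p' := by
    have hr2 : IsUnit r := hr
    exact hr2.mul_left_cancel e2
  rw [e3]

end Pool.AV3
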